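import Pool.Agent.D0H23.PP.Stm

/-!
# Few quadruples have the same value
-/

set_option autoImplicit false

namespace Pool.Agent.D0H31.PP

open Finset Pool.Agent.D0H23.PP

lemma eq_of_natAbs {a b : ℤ} (h : a.natAbs = b.natAbs) (h' : decide (0 ≤ a) = decide (0 ≤ b)) :
    a = b := by
  rw [decide_eq_decide] at h'
  omega

lemma mem_Icc_sqrt {n : ℕ} {a : ℤ} (h : a ^ 2 ≤ n) :
    a ∈ Icc (-(Nat.sqrt n : ℤ)) (Nat.sqrt n : ℤ) := by
  have h1 : a.natAbs ^ 2 ≤ n := by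
    have : ((a.natAbs : ℤ)) ^ 2 = a ^ 2 := Int.natAbs_sq a
    exact_mod_cast this.trans_le h
  have h2 : a.natAbs ≤ Nat.sqrt n := Nat.le_sqrt'.2 h1
  rw [mem_Icc]
  omega

lemma card_Icc_sqrt (n : ℕ) :
    (Icc (-(Nat.sqrt n : ℤ)) (Nat.sqrt n : ℤ)).card = 2 * Nat.sqrt n + 1 := by
  rw [Int.card_Icc]
  omega

/-- The quadruples with a fixed first coordinate. -/
lemma fibre_ne {n : ℕ} {m : ℤ} {G : Finset (Fin 4 → ℤ)} {x : ℤ}
    (hG : ∀ X ∈ G, ∑ i, X i ^ 2 = n ∧ pf X = m) (hx : ∀ X ∈ G, X 0 = x)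
    (he : 5 * (n : ℤ) - m - 4 * x ^ 2 ≠ 0) :
    G.card ≤ (5 * (n : ℤ) - m - 4 * x ^ 2).natAbs.divisors.card * 4 := by
  have hcard : ((5 * (n : ℤ) - m - 4 * x ^ 2).natAbs.divisors ×ˢ
      (univ : Finset Bool) ×ˢ (univ : Finset Bool)).card =
      (5 * (n : ℤ) - m - 4 * x ^ 2).natAbs.divisors.card * 4 := by
    rw [card_product, card_product, card_univ, Fintype.card_bool]
  rw [← hcard]
  have key : ∀ X ∈ G, 2 * ((X 1 - X 3) * (X 1 + X 3)) = 5 * (n : ℤ) - m - 4 * x ^ 2 := by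
    intro X hX
    obtain ⟨h1, h2⟩ := hG X hX
    rw [Fin.sum_univ_four] at h1
    rw [pf] at h2
    rw [← h1, ← h2, ← hx X hX]
    ring
  apply card_le_card_of_injOn
    (fun X => ((X 1 - X 3).natAbs, decide (0 ≤ X 1 - X 3), decide (0 ≤ X 2)))
  · intro X hX
    have h1 := key X hX
    simp only [coe_product, coe_univ, Set.mem_prod, Set.mem_univ, and_true, mem_coe,
      Nat.mem_divisors]
    refine ⟨?_, by simpa using he⟩
    rw [Int.natAbs_dvd_natAbs]
    exact ⟨2 * (X 1 + X 3), by rw [← h1]; ring⟩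
  · intro X hX X' hX' h
    simp only [Prod.mk.injEq] at h
    obtain ⟨h1, h2, h3⟩ := h
    have hu : X 1 - X 3 = X' 1 - X' 3 := eq_of_natAbs h1 h2
    have k1 := key X hX
    have k2 := key X' hX'
    have hu0 : X' 1 - X' 3 ≠ 0 := by
      intro h0
      rw [h0] at k2
      apply he
      rw [← k2]
      ring
    have hv : X 1 + X 3 = X' 1 + X' 3 := by
      have h4 : (X' 1 - X' 3) * (X 1 + X 3) = (X' 1 - X' 3) * (X' 1 + X' 3) := by
        rw [hu] at k1
        linarith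
      exact mul_left_cancel₀ hu0 h4
    have e1 : X 1 = X' 1 := by linarith
    have e3 : X 3 = X' 3 := by linarith
    have e0 : X 0 = X' 0 := by rw [hx X hX, hx X' hX']
    have e2 : X 2 = X' 2 := by
      apply eq_of_natAbs _ h3
      rw [Int.natAbs_eq_iff_sq_eq]
      have a1 := (hG X hX).1
      have a2 := (hG X' hX').1
      rw [Fin.sum_univ_four] at a1 a2
      rw [e0, e1, e3] at a1
      linarith
    funext i
    fin_cases i
    · exact e0
    · exact e1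
    · exact e2
    · exact e3

lemma fibre_zero {n : ℕ} {m : ℤ} {G : Finset (Fin 4 → ℤ)} {x : ℤ}
    (hG : ∀ X ∈ G, ∑ i, X i ^ 2 = n ∧ pf X = m) (hx : ∀ X ∈ G, X 0 = x)
    (he : 5 * (n : ℤ) - m - 4 * x ^ 2 = 0) :
    G.card ≤ (2 * Nat.sqrt n + 1) * 4 := by
  have hcard : (Icc (-(Nat.sqrt n : ℤ)) (Nat.sqrt n : ℤ) ×ˢ
      (univ : Finset Bool) ×ˢ (univ : Finset Bool)).card = (2 * Nat.sqrt n + 1) * 4 := by
    rw [card_product, card_product, card_univ, Fintype.card_bool, card_Icc_sqrt]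
  rw [← hcard]
  have key : ∀ X ∈ G, X 3 ^ 2 = X 1 ^ 2 := by
    intro X hX
    obtain ⟨h1, h2⟩ := hG X hX
    rw [Fin.sum_univ_four] at h1
    rw [pf] at h2
    have h3 := hx X hX
    rw [← h1, ← h2, ← h3] at he
    linarith
  apply card_le_card_of_injOn (fun X => (X 1, decide (X 3 = X 1), decide (0 ≤ X 2)))
  · intro X hX
    have a1 := (hG X hX).1
    rw [Fin.sum_univ_four] at a1
    simp only [coe_product, coe_univ, Set.mem_prod, Set.mem_univ, and_true, mem_coe]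
    apply mem_Icc_sqrt
    nlinarith [sq_nonneg (X 0), sq_nonneg (X 2), sq_nonneg (X 3)]
  · intro X hX X' hX' h
    simp only [Prod.mk.injEq] at h
    obtain ⟨h1, h2, h3⟩ := h
    rw [decide_eq_decide] at h2
    have e3 : X 3 = X' 3 := by
      rcases sq_eq_sq_iff_eq_or_eq_neg.1 (key X hX) with a | a
      · rw [a, h2.1 a, h1]
      · rcases sq_eq_sq_iff_eq_or_eq_neg.1 (key X' hX') with b | b
        · rw [h2.2 b, b, h1]
        · rw [a, b, h1]
    have e0 : X 0 = X' 0 := by rw [hx X hX, hx X' hX']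
    have e2 : X 2 = X' 2 := by
      apply eq_of_natAbs _ h3
      rw [Int.natAbs_eq_iff_sq_eq]
      have a1 := (hG X hX).1
      have a2 := (hG X' hX').1
      rw [Fin.sum_univ_four] at a1 a2
      rw [e0, h1, e3] at a1
      linarith
    funext i
    fin_cases i
    · exact e0
    · exact h1
    · exact e2
    · exact e3

lemma card_zeros (s : Finset ℤ) (c : ℤ) : (s.filter fun x => c - 4 * x ^ 2 = 0).card ≤ 2 := by
  rcases (s.filter fun x => c - 4 * x ^ 2 = 0).eq_empty_or_nonempty with h | ⟨x, hx⟩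
  · rw [h, card_empty]
    omega
  · refine (card_le_card (t := {x, -x}) ?_).trans card_le_two
    intro y hy
    rw [mem_filter] at hx hy
    rw [mem_insert, mem_singleton]
    apply sq_eq_sq_iff_eq_or_eq_neg.1
    have h1 := hx.2
    have h2 := hy.2
    linarith

theorem t_MULT : S_DIV → S_MULT := by
  classical
  intro hdiv
  obtain ⟨C, hC, hd⟩ := hdiv (1 / 24) (by norm_num)
  refine ⟨24 * (C + 1), by positivity, fun n hn m F hF => ?_⟩
  have hn1 : (1 : ℝ) ≤ n := by exact_mod_cast hn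
  have hn0 : (0 : ℝ) < n := by linarith
  set s := Nat.sqrt n with hs
  set I := Icc (-(s : ℤ)) (s : ℤ) with hI
  set D : ℝ := 2 * C * (n : ℝ) ^ (1 / 24 : ℝ) with hD
  have hD0 : 0 ≤ D := by positivity
  have hmaps : ∀ X ∈ F, X 0 ∈ I := by
    intro X hX
    have a1 := (hF X hX).1
    rw [Fin.sum_univ_four] at a1
    apply mem_Icc_sqrt
    nlinarith [sq_nonneg (X 1), sq_nonneg (X 2), sq_nonneg (X 3)]
  have hfib : ∀ x ∈ I, ((F.filter fun X => X 0 = x).card : ℝ) ≤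
      D * 4 + if 5 * (n : ℤ) - m - 4 * x ^ 2 = 0 then (2 * (s : ℝ) + 1) * 4 else 0 := by
    intro x _
    have hG : ∀ X ∈ F.filter fun X => X 0 = x, ∑ i, X i ^ 2 = (n : ℤ) ∧ pf X = m :=
      fun X hX => hF X (mem_filter.1 hX).1
    have hx : ∀ X ∈ F.filter fun X => X 0 = x, X 0 = x := fun X hX => (mem_filter.1 hX).2
    by_cases he : 5 * (n : ℤ) - m - 4 * x ^ 2 = 0
    · rw [if_pos he]
      have h1 : ((F.filter fun X => X 0 = x).card : ℝ) ≤ (2 * (s : ℝ) + 1) * 4 := by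
        exact_mod_cast fibre_zero hG hx he
      linarith
    · rw [if_neg he, add_zero]
      rcases (F.filter fun X => X 0 = x).eq_empty_or_nonempty with h | ⟨X, hX⟩
      · rw [h, card_empty, Nat.cast_zero]
        positivity
      · have h1 : ((F.filter fun X => X 0 = x).card : ℝ) ≤
            ((5 * (n : ℤ) - m - 4 * x ^ 2).natAbs.divisors.card : ℝ) * 4 := by
          exact_mod_cast fibre_ne hG hx he
        refine h1.trans (mul_le_mul_of_nonneg_right ?_ (by norm_num))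
        obtain ⟨a1, a2⟩ := hG X hX
        have a3 := hx X hX
        have hk : (5 * (n : ℤ) - m - 4 * x ^ 2).natAbs ≤ 2 * n := by
          rw [Fin.sum_univ_four] at a1
          rw [pf] at a2
          have h2 : 5 * (n : ℤ) - m - 4 * x ^ 2 = 2 * (X 1 ^ 2 - X 3 ^ 2) := by
            rw [← a1, ← a2, ← a3]
            ring
          have h3 : -(2 * (n : ℤ)) ≤ 5 * (n : ℤ) - m - 4 * x ^ 2 := by
            rw [h2]
            nlinarith [sq_nonneg (X 0), sq_nonneg (X 1), sq_nonneg (X 2), sq_nonneg (X 3)]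
          have h4 : 5 * (n : ℤ) - m - 4 * x ^ 2 ≤ 2 * (n : ℤ) := by
            rw [h2]
            nlinarith [sq_nonneg (X 0), sq_nonneg (X 1), sq_nonneg (X 2), sq_nonneg (X 3)]
          omega
        have hk1 : 1 ≤ (5 * (n : ℤ) - m - 4 * x ^ 2).natAbs := by
          have := Int.natAbs_pos.2 he
          omega
        refine (hd _ hk1).trans ?_
        have h5 : ((5 * (n : ℤ) - m - 4 * x ^ 2).natAbs : ℝ) ≤ 2 * n := by exact_mod_cast hk
        have h6 : ((5 * (n : ℤ) - m - 4 * x ^ 2).natAbs : ℝ) ^ (1 / 24 : ℝ) ≤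
            (2 * n : ℝ) ^ (1 / 24 : ℝ) :=
          Real.rpow_le_rpow (Nat.cast_nonneg _) h5 (by norm_num)
        have h7 : (2 * n : ℝ) ^ (1 / 24 : ℝ) ≤ 2 * (n : ℝ) ^ (1 / 24 : ℝ) := by
          rw [Real.mul_rpow (by norm_num) hn0.le]
          have h8 : (2 : ℝ) ^ (1 / 24 : ℝ) ≤ 2 ^ (1 : ℝ) :=
            Real.rpow_le_rpow_of_exponent_le (by norm_num) (by norm_num)
          rw [Real.rpow_one] at h8
          exact mul_le_mul_of_nonneg_right h8 (by positivity)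
        calc C * ((5 * (n : ℤ) - m - 4 * x ^ 2).natAbs : ℝ) ^ (1 / 24 : ℝ)
            ≤ C * (2 * (n : ℝ) ^ (1 / 24 : ℝ)) :=
              mul_le_mul_of_nonneg_left (h6.trans h7) hC.le
          _ = D := by rw [hD]; ring
  have hsum : (F.card : ℝ) ≤ ∑ x ∈ I, (D * 4 +
      if 5 * (n : ℤ) - m - 4 * x ^ 2 = 0 then (2 * (s : ℝ) + 1) * 4 else 0) := by
    rw [card_eq_sum_card_fiberwise hmaps, Nat.cast_sum]
    exact sum_le_sum hfib
  rw [sum_add_distrib, sum_const, ← sum_filter, sum_const, nsmul_eq_mul, nsmul_eq_mul, hI, hs,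
    card_Icc_sqrt, ← hs] at hsum
  have hz : ((((Icc (-(s : ℤ)) (s : ℤ)).filter
      fun x => 5 * (n : ℤ) - m - 4 * x ^ 2 = 0).card : ℕ) : ℝ) ≤ 2 := by
    exact_mod_cast card_zeros _ (5 * (n : ℤ) - m)
  have hs1 : (s : ℝ) ≤ (n : ℝ) ^ (1 / 2 : ℝ) := by
    rw [← Real.sqrt_eq_rpow]
    exact Real.nat_sqrt_le_real_sqrt
  have hr1 : (1 : ℝ) ≤ (n : ℝ) ^ (1 / 2 : ℝ) := Real.one_le_rpow hn1 (by norm_num)
  have hr2 : (1 : ℝ) ≤ (n : ℝ) ^ (1 / 24 : ℝ) := Real.one_le_rpow hn1 (by norm_num)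
  have hr3 : (n : ℝ) ^ (13 / 24 : ℝ) = (n : ℝ) ^ (1 / 2 : ℝ) * (n : ℝ) ^ (1 / 24 : ℝ) := by
    rw [← Real.rpow_add hn0]
    norm_num
  have h9 : 2 * (s : ℝ) + 1 ≤ 3 * (n : ℝ) ^ (1 / 2 : ℝ) := by linarith
  have hs0 : (0 : ℝ) ≤ s := Nat.cast_nonneg _
  push_cast at hsum
  have h10 : (F.card : ℝ) ≤ (2 * (s : ℝ) + 1) * (D * 4) + 2 * ((2 * (s : ℝ) + 1) * 4) := by
    refine hsum.trans (add_le_add le_rfl ?_)
    exact mul_le_mul_of_nonneg_right hz (by positivity)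
  rw [hr3]
  generalize (n : ℝ) ^ (1 / 2 : ℝ) = a at *
  generalize (n : ℝ) ^ (1 / 24 : ℝ) = b at *
  have h11 : (F.card : ℝ) ≤ (2 * (s : ℝ) + 1) * (8 * C * b + 8) := by
    rw [hD] at h10
    linarith
  refine h11.trans ?_
  have h12 : (2 * (s : ℝ) + 1) * (8 * C * b + 8) ≤ (3 * a) * (8 * C * b + 8 * b) := by
    apply mul_le_mul h9 _ (by positivity) (by positivity)
    linarith
  refine h12.trans (le_of_eq ?_)
  ring

end Pool.Agent.D0H31.PP
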