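import Pool.Agent.D0H31.PP.Mult
import Pool.Agent.D0H23.PP.Stm2

/-!
# Few quadruples have the same value: every exponent
-/

set_option autoImplicit false

namespace Pool.Agent.D0H31.PP

open Finset Pool.Agent.D0H23.PP

theorem t_MULT2 : S_DIV → S_MULT2 := by
  classical
  intro hdiv ε hε
  obtain ⟨C, hC, hd⟩ := hdiv ε hε
  refine ⟨12 * C * (2 : ℝ) ^ ε + 24, by positivity, fun n hn m F hF => ?_⟩
  have hn1 : (1 : ℝ) ≤ n := by exact_mod_cast hn
  have hn0 : (0 : ℝ) < n := by linarith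
  set s := Nat.sqrt n with hs
  set I := Icc (-(s : ℤ)) (s : ℤ) with hI
  set D : ℝ := C * (2 : ℝ) ^ ε * (n : ℝ) ^ ε with hD
  have hD0 : 0 ≤ D := by positivity
  have hmaps : ∀ X ∈ F, X 0 ∈ I := by
    intro X hX
    have a1 := (hF X hX).1
    rw [Fin.sum_univ_four] at a1
    apply mem_Icc_sqrt
    nlinarith [sq_nonneg (X 1), sq_nonneg (X 2), sq_nonneg (X 3)]
  have hfib : ∀ x ∈ I, ((F.filter fun X => X 0 = x).card : ℝ) ≤
      D * 4 + if 5 * (n : ℤ) - m - 4 * x ^ 2 = 0 then (2 * (s : ℝ) + 1) * 4 else 0 := by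
    intro x _
    have hG : ∀ X ∈ F.filter fun X => X 0 = x, ∑ i, X i ^ 2 = (n : ℤ) ∧ pf X = m :=
      fun X hX => hF X (mem_filter.1 hX).1
    have hx : ∀ X ∈ F.filter fun X => X 0 = x, X 0 = x := fun X hX => (mem_filter.1 hX).2
    by_cases he : 5 * (n : ℤ) - m - 4 * x ^ 2 = 0
    · rw [if_pos he]
      have h1 : ((F.filter fun X => X 0 = x).card : ℝ) ≤ (2 * (s : ℝ) + 1) * 4 := by
        exact_mod_cast fibre_zero hG hx he
      linarith
    · rw [if_neg he, add_zero]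
      rcases (F.filter fun X => X 0 = x).eq_empty_or_nonempty with h | ⟨X, hX⟩
      · rw [h, card_empty, Nat.cast_zero]
        positivity
      · have h1 : ((F.filter fun X => X 0 = x).card : ℝ) ≤
            ((5 * (n : ℤ) - m - 4 * x ^ 2).natAbs.divisors.card : ℝ) * 4 := by
          exact_mod_cast fibre_ne hG hx he
        refine h1.trans (mul_le_mul_of_nonneg_right ?_ (by norm_num))
        obtain ⟨a1, a2⟩ := hG X hX
        have a3 := hx X hX
        have hk : (5 * (n : ℤ) - m - 4 * x ^ 2).natAbs ≤ 2 * n := by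
          rw [Fin.sum_univ_four] at a1
          rw [pf] at a2
          have h2 : 5 * (n : ℤ) - m - 4 * x ^ 2 = 2 * (X 1 ^ 2 - X 3 ^ 2) := by
            rw [← a1, ← a2, ← a3]
            ring
          have h3 : -(2 * (n : ℤ)) ≤ 5 * (n : ℤ) - m - 4 * x ^ 2 := by
            rw [h2]
            nlinarith [sq_nonneg (X 0), sq_nonneg (X 1), sq_nonneg (X 2), sq_nonneg (X 3)]
          have h4 : 5 * (n : ℤ) - m - 4 * x ^ 2 ≤ 2 * (n : ℤ) := by
            rw [h2]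
            nlinarith [sq_nonneg (X 0), sq_nonneg (X 1), sq_nonneg (X 2), sq_nonneg (X 3)]
          omega
        have hk1 : 1 ≤ (5 * (n : ℤ) - m - 4 * x ^ 2).natAbs := by
          have := Int.natAbs_pos.2 he
          omega
        refine (hd _ hk1).trans ?_
        have h5 : ((5 * (n : ℤ) - m - 4 * x ^ 2).natAbs : ℝ) ≤ 2 * n := by exact_mod_cast hk
        have h6 : ((5 * (n : ℤ) - m - 4 * x ^ 2).natAbs : ℝ) ^ ε ≤ (2 * n : ℝ) ^ ε :=
          Real.rpow_le_rpow (Nat.cast_nonneg _) h5 hε.le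
        calc C * ((5 * (n : ℤ) - m - 4 * x ^ 2).natAbs : ℝ) ^ ε
            ≤ C * (2 * n : ℝ) ^ ε := mul_le_mul_of_nonneg_left h6 hC.le
          _ = D := by rw [hD, Real.mul_rpow (by norm_num) hn0.le]; ring
  have hsum : (F.card : ℝ) ≤ ∑ x ∈ I, (D * 4 +
      if 5 * (n : ℤ) - m - 4 * x ^ 2 = 0 then (2 * (s : ℝ) + 1) * 4 else 0) := by
    rw [card_eq_sum_card_fiberwise hmaps, Nat.cast_sum]
    exact sum_le_sum hfib
  rw [sum_add_distrib, sum_const, ← sum_filter, sum_const, nsmul_eq_mul, nsmul_eq_mul, hI, hs,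
    card_Icc_sqrt, ← hs] at hsum
  have hz : ((((Icc (-(s : ℤ)) (s : ℤ)).filter
      fun x => 5 * (n : ℤ) - m - 4 * x ^ 2 = 0).card : ℕ) : ℝ) ≤ 2 := by
    exact_mod_cast card_zeros _ (5 * (n : ℤ) - m)
  have hs1 : (s : ℝ) ≤ (n : ℝ) ^ (1 / 2 : ℝ) := by
    rw [← Real.sqrt_eq_rpow]
    exact Real.nat_sqrt_le_real_sqrt
  have hr1 : (1 : ℝ) ≤ (n : ℝ) ^ (1 / 2 : ℝ) := Real.one_le_rpow hn1 (by norm_num)
  have hr2 : (1 : ℝ) ≤ (n : ℝ) ^ ε := Real.one_le_rpow hn1 hε.le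
  have hr3 : (n : ℝ) ^ (1 / 2 + ε) = (n : ℝ) ^ (1 / 2 : ℝ) * (n : ℝ) ^ ε := Real.rpow_add hn0 _ _
  have h9 : 2 * (s : ℝ) + 1 ≤ 3 * (n : ℝ) ^ (1 / 2 : ℝ) := by linarith
  have hs0 : (0 : ℝ) ≤ s := Nat.cast_nonneg _
  push_cast at hsum
  have h10 : (F.card : ℝ) ≤ (2 * (s : ℝ) + 1) * (D * 4) + 2 * ((2 * (s : ℝ) + 1) * 4) := by
    refine hsum.trans (add_le_add le_rfl ?_)
    exact mul_le_mul_of_nonneg_right hz (by positivity)
  rw [hr3]
  generalize (n : ℝ) ^ (1 / 2 : ℝ) = a at *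
  generalize (n : ℝ) ^ ε = b at *
  have hq : (0 : ℝ) ≤ (2 : ℝ) ^ ε := by positivity
  generalize (2 : ℝ) ^ ε = q at *
  have h11 : (F.card : ℝ) ≤ (2 * (s : ℝ) + 1) * (4 * C * q * b + 8) := by
    rw [hD] at h10
    linarith
  refine h11.trans ?_
  have h12 : (2 * (s : ℝ) + 1) * (4 * C * q * b + 8) ≤ (3 * a) * (4 * C * q * b + 8 * b) := by
    apply mul_le_mul h9 _ (by positivity) (by positivity)
    linarith
  refine h12.trans (le_of_eq ?_)
  ring

end Pool.Agent.D0H31.PP
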